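import Pool.Agent.Lib.MP_7f581e_U.F.Spec1

/-!
# C41 (MP_7f581e_nt), Block F, HslF: Hensel's lemma at a simple point
-/

set_option autoImplicit false

namespace MP7U

open Polynomial

theorem fHslF : HslFStmt := by
  intro k _ f a b hf h0 h1
  set ψ : k[X] →+* PowerSeries k := (aeval (PowerSeries.C a + PowerSeries.X : PowerSeries k) :
      k[X] →ₐ[k] PowerSeries k).toRingHom with hψ
  have hcc : (PowerSeries.constantCoeff (R := k)).comp ψ = evalRingHom a := by
    apply Polynomial.ringHom_ext
    · intro r
      have h2 : ψ (C r) = PowerSeries.C r := by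
        rw [hψ]
        change aeval _ (C r) = _
        rw [aeval_C]
        rfl
      rw [RingHom.comp_apply, h2, PowerSeries.constantCoeff_C, coe_evalRingHom, eval_C]
    · have h2 : ψ X = PowerSeries.C a + PowerSeries.X := by
        rw [hψ]
        change aeval _ X = _
        rw [aeval_X]
      rw [RingHom.comp_apply, h2, map_add, PowerSeries.constantCoeff_C, PowerSeries.constantCoeff_X,
        add_zero, coe_evalRingHom, eval_X]
  have hev : ∀ g : k[X][X], PowerSeries.constantCoeff ((g.map ψ).eval (PowerSeries.C b)) =
      (g.eval (C b)).eval a := by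
    intro g
    rw [eval_map, Polynomial.hom_eval₂, hcc, PowerSeries.constantCoeff_C]
    have h2 : (g.eval (C b)).eval a = evalRingHom a (eval₂ (RingHom.id k[X]) (C b) g) := rfl
    rw [h2, Polynomial.hom_eval₂, RingHom.comp_id, coe_evalRingHom, eval_C]
  obtain ⟨β, hβ, -⟩ := HenselianRing.is_henselian (R := PowerSeries k)
    (I := Ideal.span {PowerSeries.X}) (f.map ψ) (hf.map ψ) (PowerSeries.C b)
    (by
      rw [Ideal.mem_span_singleton, PowerSeries.X_dvd_iff, hev, h0])
    (by
      apply IsUnit.map
      rw [derivative_map, PowerSeries.isUnit_iff_constantCoeff, hev]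
      exact h1.isUnit)
  refine ⟨β, ?_⟩
  rw [← eval_map]
  exact hβ

end MP7U
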