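import Pool.Agent.Lib.MP_7f581e_U.F.Spec1

/-!
# C41 (MP_7f581e_nt), U/F/InvF: a simple group of even order is generated by involutions
-/

set_option autoImplicit false

namespace MP7U

theorem fInvF : InvFStmt := by
  intro S _ _ hS
  obtain ⟨g, hg1, hg2⟩ := hS
  have hN : (Subgroup.closure {g : S | g ^ 2 = 1}).Normal := by
    refine ⟨fun n hn x => ?_⟩
    induction hn using Subgroup.closure_induction with
    | mem y hy =>
      apply Subgroup.subset_closure
      rw [Set.mem_setOf_eq] at hy ⊢
      rw [conj_pow, hy, mul_one, mul_inv_cancel]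
    | one =>
      rw [mul_one, mul_inv_cancel]
      exact one_mem _
    | mul a b _ _ ha hb =>
      have h : x * (a * b) * x⁻¹ = (x * a * x⁻¹) * (x * b * x⁻¹) := by group
      rw [h]
      exact mul_mem ha hb
    | inv a _ ha =>
      have h : x * a⁻¹ * x⁻¹ = (x * a * x⁻¹)⁻¹ := by group
      rw [h]
      exact inv_mem ha
  rcases hN.eq_bot_or_eq_top with h | h
  · exfalso
    apply hg1
    have h1 : g ∈ Subgroup.closure {g : S | g ^ 2 = 1} := Subgroup.subset_closure hg2
    rwa [h, Subgroup.mem_bot] at h1
  · exact h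

end MP7U
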