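import Pool.Agent.Lib.MP_7f581e_U.F.CopF
import Pool.Agent.Lib.MP_7f581e_U.F.HslF
import Pool.Agent.Lib.MP_7f581e_U.F.InvF

/-!
# C41 (MP_7f581e_nt), Block F, assembly
-/

set_option autoImplicit false

namespace MP7U

theorem xCopF : CopFStmt := fCopF

theorem xHslF : HslFStmt := fHslF

theorem xInvF : InvFStmt := fInvF

end MP7U
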