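import Pool.Agent.Lib.MP_7f581e_U.F.Spec1

/-!
MP_7f581e, U/F, module BasF: the trivial group.
-/

set_option autoImplicit false

namespace MP7U

open Polynomial

theorem fBasF : BasFStmt := by
  intro k _ Γ _ _ ε
  refine ⟨RatFunc k, inferInstance, Algebra.id _, 1, 1, inferInstance, inferInstance, ⟨?_, ?_⟩,
    ?_, ?_, ?_⟩
  · intro a b _
    exact Subsingleton.elim a b
  · intro e
    refine ⟨1, ?_⟩
    apply AlgEquiv.ext
    intro x
    have := e.commutes x
    exact this.symm
  · simp
  · intro σ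
    rw [Subsingleton.elim σ 1]
    simp
  · rintro x ⟨f, hf, hx⟩
    by_contra hcon
    have h1 : ¬ ∃ c, x = RatFunc.C c := by
      rintro ⟨c, rfl⟩
      exact hcon ⟨c, rfl⟩
    have h2 := RatFunc.transcendental_of_ne_C x h1
    exact h2 ⟨f, hf, hx⟩

end MP7U
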