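import Pool.Agent.Lib.MP_7f581e_U.F.Spec1

/-!
# C41 (MP_7f581e_nt), Block F: the group of order two
-/

set_option autoImplicit false

namespace MP7U

open Polynomial

namespace BqFAux

theorem irr_sqrt (K : Type) [Field K] :
    Irreducible (X ^ 2 - C (RatFunc.X : RatFunc K) : (RatFunc K)[X]) := by
  refine X_pow_sub_C_irreducible_of_prime Nat.prime_two fun b hb => ?_
  have hb0 : b ≠ 0 := by
    rintro rfl
    rw [zero_pow (by norm_num)] at hb
    exact RatFunc.X_ne_zero hb.symm
  have h := congrArg RatFunc.intDegree hb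
  rw [pow_two, RatFunc.intDegree_mul hb0 hb0, RatFunc.intDegree_X] at h
  omega

/-- The equation of `√X`. -/
noncomputable def mm (k : Type) [Field k] : k[X][X] := X ^ 2 - C X

theorem mm_monic (k : Type) [Field k] : (mm k).Monic := monic_X_pow_sub_C _ (by norm_num)

theorem mm_natDegree (k : Type) [Field k] : (mm k).natDegree = 2 := natDegree_X_pow_sub_C

theorem mm_map (k K₁ : Type) [Field k] [Field K₁] (φ : k →+* K₁) :
    ((mm k).map (mapRingHom φ)).map (algebraMap K₁[X] (RatFunc K₁)) =
      X ^ 2 - C (RatFunc.X : RatFunc K₁) := by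
  rw [mm, Polynomial.map_sub, Polynomial.map_pow, Polynomial.map_X, Polynomial.map_C,
    coe_mapRingHom, Polynomial.map_X, Polynomial.map_sub, Polynomial.map_pow, Polynomial.map_X,
    Polynomial.map_C, RatFunc.algebraMap_X]

theorem mm_absIrr (k : Type) [Field k] : AbsIrr k (mm k) := by
  intro K₁ _ φ
  unfold IrrR
  rw [mm_map]
  exact irr_sqrt K₁

end BqFAux

open BqFAux in
theorem fBqF (h1 : RegCStmt) : BqFStmt := by
  classical
  intro k _ _ Γ _ ε g hg2 hεg
  have hg1 : g ≠ 1 := by
    rintro rfl
    rw [map_one] at hεg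
    exact absurd hεg (by decide)
  let P : (RatFunc k)[X] := X ^ 2 - C (RatFunc.X : RatFunc k)
  have hPm : P.Monic := monic_X_pow_sub_C _ (by norm_num)
  have hPd : P.natDegree = 2 := natDegree_X_pow_sub_C
  have hfact : Fact (Irreducible P) := ⟨irr_sqrt k⟩
  let L := AdjoinRoot P
  let y : L := AdjoinRoot.root P
  have hroot : y ^ 2 - AdjoinRoot.of P RatFunc.X = 0 := by
    have h := AdjoinRoot.eval₂_root P
    rw [eval₂_sub, eval₂_pow, eval₂_X, eval₂_C] at h
    exact h
  have hy2 : y ^ 2 = algebraMap (RatFunc k) L RatFunc.X := sub_eq_zero.mp hroot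
  have hfin : FiniteDimensional (RatFunc k) L := hPm.finite_adjoinRoot
  have hrank : Module.finrank (RatFunc k) L = 2 := by
    rw [(AdjoinRoot.powerBasis' hPm).finrank, AdjoinRoot.powerBasis'_dim, hPd]
  have hy0 : y ≠ 0 := by
    intro h
    rw [h, zero_pow (by norm_num)] at hy2
    exact RatFunc.X_ne_zero ((algebraMap (RatFunc k) L).injective (by rw [← hy2, map_zero]))
  have h2k : (2 : k) ≠ 0 := two_ne_zero
  have h2L : (2 : L) ≠ 0 := by
    have h3 : ((algebraMap (RatFunc k) L).comp (algebraMap k (RatFunc k))) 2 = 2 := map_ofNat _ 2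
    rw [← h3]
    intro h4
    exact h2k (((algebraMap (RatFunc k) L).comp (algebraMap k (RatFunc k))).injective
      (by rw [h4, map_zero]))
  have hyne : -y ≠ y := by
    intro h
    have h3 : 2 * y = 0 := by
      rw [two_mul]
      nth_rewrite 1 [← h]
      exact neg_add_cancel y
    exact (mul_ne_zero h2L hy0) h3
  -- the automorphism
  let s : L →ₐ[RatFunc k] L := AdjoinRoot.liftAlgHom P (Algebra.ofId (RatFunc k) L) (-y) (by
    rw [eval₂_sub, eval₂_pow, eval₂_X, eval₂_C, neg_sq, hy2]
    exact sub_self _)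
  have hsy : s y = -y := AdjoinRoot.liftAlgHom_root _ _ _ _
  have hss : s.comp s = AlgHom.id (RatFunc k) L := by
    apply AdjoinRoot.algHom_ext
    rw [AlgHom.comp_apply]
    change s (s y) = y
    rw [hsy, map_neg, hsy, neg_neg]
  let S : L ≃ₐ[RatFunc k] L := AlgEquiv.ofAlgHom s s hss hss
  have hSy : S y = -y := hsy
  have hSS : S * S = 1 := by
    refine AlgEquiv.ext fun z => ?_
    exact DFunLike.congr_fun hss z
  let χ : ℤˣ →* (L ≃ₐ[RatFunc k] L) :=
    { toFun := fun u => if u = 1 then 1 else S
      map_one' := if_pos rfl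
      map_mul' := fun u v => by
        have hne : (-1 : ℤˣ) ≠ 1 := by decide
        rcases Int.units_eq_one_or u with rfl | rfl <;> rcases Int.units_eq_one_or v with rfl | rfl
        · simp
        · simp [hne]
        · simp [hne]
        · rw [if_neg hne, if_pos (by decide), hSS] }
  have hχ1 : χ (-1) = S := by
    change (if (-1 : ℤˣ) = 1 then 1 else S) = S
    rw [if_neg (by decide)]
  have hSne : S ≠ 1 := by
    intro h
    refine hyne ?_
    rw [← hSy, h]
    rfl
  let act : Subgroup.zpowers g →* (L ≃ₐ[RatFunc k] L) := χ.comp (ε.comp (Subgroup.zpowers g).subtype)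
  have hact : ∀ h, act h = χ (ε (h : Γ)) := fun _ => rfl
  have hcases : ∀ h : Subgroup.zpowers g, (h : Γ) = 1 ∨ (h : Γ) = g := by
    rintro ⟨h, n, rfl⟩
    rcases Int.even_or_odd' n with ⟨m, rfl | rfl⟩
    · left
      change g ^ (2 * m) = 1
      rw [zpow_mul, zpow_ofNat, hg2, one_zpow]
    · right
      change g ^ (2 * m + 1) = g
      rw [zpow_add, zpow_mul, zpow_ofNat, hg2, one_zpow, one_mul, zpow_one]
  have hinj : Function.Injective act := by
    rw [injective_iff_map_eq_one]
    intro h hh
    rcases hcases h with h3 | h3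
    · exact Subtype.ext h3
    · exfalso
      rw [hact, h3, hεg, hχ1] at hh
      exact hSne hh
  have hsurj : Function.Surjective act := by
    intro f
    have h3 : f y ^ 2 = y ^ 2 := by
      rw [← map_pow, hy2]
      exact f.commutes _
    rcases sq_eq_sq_iff_eq_or_eq_neg.mp h3 with h4 | h4
    · refine ⟨1, ?_⟩
      rw [map_one]
      apply AlgEquiv.coe_toAlgHom_injective
      apply AdjoinRoot.algHom_ext
      exact h4.symm
    · refine ⟨⟨g, Subgroup.mem_zpowers g⟩, ?_⟩
      rw [hact, hεg, hχ1]
      apply AlgEquiv.coe_toAlgHom_injective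
      apply AdjoinRoot.algHom_ext
      change S y = f y
      rw [hSy, h4]
  have hcard : Nat.card (Subgroup.zpowers g) = 2 := by
    rw [Nat.card_zpowers]
    exact orderOf_eq_prime hg2 hg1
  have hgal : IsGalois (RatFunc k) L := by
    refine IsGalois.of_card_aut_eq_finrank (RatFunc k) L ?_
    rw [← Nat.card_eq_of_bijective act ⟨hinj, hsurj⟩, hcard, hrank]
  have hreg := h1 k L y (mm k) hfin (mm_monic k) (by rw [mm_natDegree, hrank])
    (by
      rw [mm, eval₂_sub, eval₂_pow, eval₂_X, eval₂_C, hy2, RingHom.comp_apply,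
        RatFunc.algebraMap_X, sub_self])
    (mm_absIrr k)
  refine ⟨L, inferInstance, inferInstance, act, y, hfin, hgal, ⟨hinj, hsurj⟩, ?_, ?_, hreg⟩
  · rw [pow_one, hy2]
  · intro h
    rw [hact, MonoidHom.comp_apply, Subgroup.subtype_apply]
    rcases hcases h with h3 | h3
    · rw [h3, map_one, map_one]
      simp
    · rw [h3, hεg, hχ1, hSy, Units.val_neg, Units.val_one, Int.cast_neg, Int.cast_one]
      exact (neg_one_mul y).symm

end MP7U
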