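import Pool.Agent.Lib.MP_7f581e_U.F.Spec1

/-!
MP_7f581e, U/F, module CngF: transport along an isomorphism.
-/

set_option autoImplicit false

namespace MP7U

open Polynomial

theorem fCngF : CngFStmt := by
  rintro k _ Γ Γ' _ _ f ε e ⟨L, iF, iA, act, y, h1, h2, h3, h4, h5, h6⟩
  exact ⟨L, iF, iA, act.comp f.toMonoidHom, y, h1, h2, h3.comp f.bijective, h4,
    fun σ => h5 (f σ), h6⟩

end MP7U
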