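import Pool.Agent.Lib.MP_7f581e_U.F.Spec1

/-!
MP_7f581e, U/F, module CopF: a discriminant.
-/

set_option autoImplicit false

namespace MP7U

open Polynomial

theorem fCopF : CopFStmt := by
  intro k _ _ m _ _ hirr
  have : CharZero (RatFunc k) := charZero_of_injective_algebraMap (RatFunc.algebraMap_injective k)
  have hsep : (m.map (algebraMap k[X] (RatFunc k))).Separable := Irreducible.separable hirr
  obtain ⟨a, b, hab⟩ := hsep
  obtain ⟨d₁, h₁⟩ := IsLocalization.integerNormalization_map_to_map (nonZeroDivisors k[X]) a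
  obtain ⟨d₂, h₂⟩ := IsLocalization.integerNormalization_map_to_map (nonZeroDivisors k[X]) b
  refine ⟨(d₁ : k[X]) * d₂, C (d₂ : k[X]) * IsLocalization.integerNormalization (nonZeroDivisors k[X]) a,
    C (d₁ : k[X]) * IsLocalization.integerNormalization (nonZeroDivisors k[X]) b, ?_, ?_⟩
  · exact mul_ne_zero (nonZeroDivisors.ne_zero d₁.2) (nonZeroDivisors.ne_zero d₂.2)
  · apply Polynomial.map_injective (algebraMap k[X] (RatFunc k)) (RatFunc.algebraMap_injective k)
    have e1 : ((d₁ : k[X]) • a : (RatFunc k)[X]) = C (algebraMap k[X] (RatFunc k) d₁) * a := by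
      rw [← algebraMap_smul (RatFunc k) (d₁ : k[X]) a, Polynomial.smul_eq_C_mul]
    have e2 : ((d₂ : k[X]) • b : (RatFunc k)[X]) = C (algebraMap k[X] (RatFunc k) d₂) * b := by
      rw [← algebraMap_smul (RatFunc k) (d₂ : k[X]) b, Polynomial.smul_eq_C_mul]
    rw [derivative_map] at hab
    simp only [Polynomial.map_add, Polynomial.map_mul, Polynomial.map_C, h₁, h₂, e1, e2, map_mul]
    linear_combination (C (algebraMap k[X] (RatFunc k) d₁) * C (algebraMap k[X] (RatFunc k) d₂)) * hab

end MP7U
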