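import Pool.Agent.Lib.MP_7f581e_U.F.Spec1

/-!
# C41 (MP_7f581e_nt), U/F/EpsF: the sign character
-/

set_option autoImplicit false

namespace MP7U

open Pointwise

theorem fEpsF : EpsFStmt := by
  classical
  intro A _ N hN α h2 hα htop
  have hinv : α⁻¹ = α := by
    rw [inv_eq_iff_mul_eq_one, ← pow_two, h2]
  have key : ∀ x : A, x ∉ N → x * α ∈ N := by
    intro x hx
    have h1 : x ∈ (N ⊔ Subgroup.zpowers α : Subgroup A) := by
      rw [htop]
      exact Subgroup.mem_top x
    have h3 : x ∈ (N : Set A) * (Subgroup.zpowers α : Set A) := by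
      rw [← Subgroup.normal_mul]
      exact h1
    obtain ⟨n, hn, z, hz, rfl⟩ := Set.mem_mul.1 h3
    obtain ⟨m, rfl⟩ := Subgroup.mem_zpowers_iff.1 hz
    rcases Int.even_or_odd m with ⟨r, hr⟩ | ⟨r, hr⟩
    · exfalso
      apply hx
      have h4 : α ^ m = 1 := by
        rw [hr, ← two_mul, zpow_mul]
        have h5 : α ^ (2 : ℤ) = 1 := by exact_mod_cast h2
        rw [h5, one_zpow]
      simp only [h4, mul_one]
      exact hn
    · have h4 : α ^ m = α := by
        rw [hr, zpow_add, zpow_mul, zpow_one]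
        have h5 : α ^ (2 : ℤ) = 1 := by exact_mod_cast h2
        rw [h5, one_zpow, one_mul]
      simp only [h4]
      rw [mul_assoc, ← pow_two, h2, mul_one]
      exact hn
  have hmul : ∀ x y : A, x ∉ N → y ∉ N → x * y ∈ N := by
    intro x y hx hy
    have h3 : x * y = (x * α) * (α * (y * α) * α⁻¹) := by
      rw [mul_assoc x α, mul_assoc α (y * α), mul_assoc y α α⁻¹, mul_inv_cancel, mul_one,
        ← mul_assoc α α y, ← pow_two, h2, one_mul]
    rw [h3]
    exact mul_mem (key x hx) (hN.conj_mem _ (key y hy) α)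
  refine ⟨{ toFun := fun x => if x ∈ N then 1 else -1, map_one' := ?_, map_mul' := ?_ }, ?_, ?_⟩
  · rw [if_pos (one_mem N)]
  · intro x y
    by_cases hx : x ∈ N
    · by_cases hy : y ∈ N
      · rw [if_pos hx, if_pos hy, if_pos (mul_mem hx hy), one_mul]
      · rw [if_pos hx, if_neg hy, if_neg (fun h => hy ((Subgroup.mul_mem_cancel_left N hx).1 h)),
          one_mul]
    · by_cases hy : y ∈ N
      · rw [if_neg hx, if_pos hy, if_neg (fun h => hx ((Subgroup.mul_mem_cancel_right N hy).1 h)),
          mul_one]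
      · rw [if_neg hx, if_neg hy, if_pos (hmul x y hx hy)]
        rfl
  · intro x
    change (if x ∈ N then (1 : ℤˣ) else -1) = 1 ↔ x ∈ N
    by_cases hx : x ∈ N
    · simp [hx]
    · rw [if_neg hx]
      constructor
      · intro h
        exact absurd h (by decide)
      · intro h
        exact absurd h hx
  · change (if α ∈ N then (1 : ℤˣ) else -1) = -1
    rw [if_neg hα]

end MP7U
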