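import Pool.Agent.Lib.MP_7f581e_U.F.Spec1

/-!
# C41 (MP_7f581e_nt), Block F: change of the parameter, `X = y²`
-/

set_option autoImplicit false

namespace MP7U

open Polynomial

theorem fExtF : ExtFStmt := by
  intro k _ h2k Γ _ _ ε g hεg hHH
  obtain ⟨L, _, _, act, y, hfd, hgal, hbij, hy, hact, hreg⟩ := hHH
  rw [pow_one] at hy
  let _ : Algebra k L := ((algebraMap (RatFunc k) L).comp (algebraMap k (RatFunc k))).toAlgebra
  have htow : IsScalarTower k (RatFunc k) L := IsScalarTower.of_algebraMap_eq (fun _ => rfl)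
  have hX : Transcendental k (algebraMap (RatFunc k) L RatFunc.X) :=
    (transcendental_algebraMap_iff (algebraMap (RatFunc k) L).injective).mpr
      RatFunc.transcendental_X
  have hyT : Transcendental k y := by
    intro h
    refine hX ?_
    rw [← hy]
    exact h.pow 2
  have hy0 : y ≠ 0 := by
    rintro rfl
    exact hyT isAlgebraic_zero
  have h2L : (2 : L) ≠ 0 := by
    have h3 : (algebraMap k L) 2 = 2 := map_ofNat _ 2
    rw [← h3]
    intro h4
    exact h2k ((algebraMap k L).injective (by rw [h4, map_zero]))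
  have hinj : Function.Injective (aeval y : k[X] →ₐ[k] L).toRingHom :=
    transcendental_iff_injective.mp hyT
  obtain ⟨j, hj⟩ : ∃ j : RatFunc k →+* L, ∀ p : k[X], j (algebraMap k[X] (RatFunc k) p) =
      aeval y p :=
    ⟨IsFractionRing.lift (A := k[X]) (K := RatFunc k) hinj,
      fun p => IsFractionRing.lift_algebraMap hinj p⟩
  have hjC : ∀ c : k, j (RatFunc.C c) = algebraMap (RatFunc k) L (RatFunc.C c) := by
    intro c
    rw [← RatFunc.algebraMap_C, hj, aeval_C, RatFunc.algebraMap_C]
    rfl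
  have hjX : j RatFunc.X = y := by
    rw [← RatFunc.algebraMap_X, hj, aeval_X]
  -- the old field is contained in the new one
  have hold : ∀ r : RatFunc k, algebraMap (RatFunc k) L r ∈ j.fieldRange := by
    have hpol : ∀ p : k[X], algebraMap (RatFunc k) L (algebraMap k[X] (RatFunc k) p) ∈
        j.fieldRange := by
      intro p
      refine ⟨algebraMap k[X] (RatFunc k) (p.comp (X ^ 2)), ?_⟩
      have h3 : algebraMap k[X] (RatFunc k) p = aeval (RatFunc.X : RatFunc k) p := by
        rw [← RatFunc.algebraMap_X, aeval_algebraMap_apply, aeval_X_left_apply]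
      rw [hj, aeval_comp, map_pow, aeval_X, hy, h3, aeval_algebraMap_apply]
    intro r
    obtain ⟨p, q, hq, rfl⟩ := IsFractionRing.div_surjective (A := k[X]) r
    rw [map_div₀]
    exact div_mem (hpol p) (hpol q)
  have hfix : ∀ z : L, (∀ τ : Γ, act τ z = z) → z ∈ j.fieldRange := by
    intro z hz
    have h3 : z ∈ Set.range (algebraMap (RatFunc k) L) := by
      rw [IsGalois.mem_range_algebraMap_iff_fixed]
      intro f
      obtain ⟨τ, rfl⟩ := hbij.2 f
      exact hz τ
    obtain ⟨r, rfl⟩ := h3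
    exact hold r
  have hy1 : ∀ τ, ε τ = 1 → act τ y = y := fun τ hτ => by
    rw [hact, hτ]; simp
  have hy2 : ∀ τ, ε τ = -1 → act τ y = -y := fun τ hτ => by
    rw [hact, hτ]; simp
  have hmul : ∀ σ τ (z : L), act (σ * τ) z = act σ (act τ z) := fun σ τ z => by
    rw [map_mul]; rfl
  have hmain : ∀ z : L, (∀ σ : Γ, ε σ = 1 → act σ z = z) → z ∈ j.fieldRange := by
    intro z hz
    have hA1 : ∀ τ, ε τ = 1 → act τ (act g z) = act g z := by
      intro τ hτ
      rw [← hmul, show τ * g = g * (g⁻¹ * τ * g) by group, hmul, hz (g⁻¹ * τ * g)]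
      rw [map_mul, map_mul, hτ, mul_one, ← map_mul, inv_mul_cancel, map_one]
    have hB1 : ∀ τ, ε τ = -1 → act τ z = act g z := by
      intro τ hτ
      rw [show τ = g * (g⁻¹ * τ) by group, hmul, hz (g⁻¹ * τ)]
      rw [map_mul, map_inv, hτ, hεg]
      rfl
    have hB2 : ∀ τ, ε τ = -1 → act τ (act g z) = z := by
      intro τ hτ
      rw [← hmul, hz (τ * g)]
      rw [map_mul, hτ, hεg]
      rfl
    have h1 : z + act g z ∈ j.fieldRange := by
      refine hfix _ fun τ => ?_
      rcases Int.units_eq_one_or (ε τ) with h | h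
      · rw [map_add, hz τ h, hA1 τ h]
      · rw [map_add, hB1 τ h, hB2 τ h, add_comm]
    have h2 : (z - act g z) * y⁻¹ ∈ j.fieldRange := by
      refine hfix _ fun τ => ?_
      rcases Int.units_eq_one_or (ε τ) with h | h
      · rw [map_mul, map_inv₀, map_sub, hz τ h, hA1 τ h, hy1 τ h]
      · rw [map_mul, map_inv₀, map_sub, hB1 τ h, hB2 τ h, hy2 τ h, inv_neg, mul_neg, ← neg_mul,
          neg_sub]
    have h3 : z = (2 : L)⁻¹ * ((z + act g z) + (z - act g z) * y⁻¹ * y) := by
      rw [mul_assoc, inv_mul_cancel₀ hy0, mul_one]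
      have h4 : z + act g z + (z - act g z) = 2 * z := by ring
      rw [h4, ← mul_assoc, inv_mul_cancel₀ h2L, one_mul]
    rw [h3]
    have h5 : (2 : L) ∈ j.fieldRange := ⟨2, map_ofNat _ 2⟩
    exact mul_mem (inv_mem h5) (add_mem h1 (mul_mem h2 ⟨RatFunc.X, hjX⟩))
  have hconv : ∀ (x : RatFunc k) (σ : Γ), ε σ = 1 → act σ (j x) = j x := by
    intro x σ hσ
    have h3 : ((act σ : L ≃ₐ[RatFunc k] L) : L →+* L).comp j = j := by
      apply IsLocalization.ringHom_ext (nonZeroDivisors k[X])
      apply Polynomial.ringHom_ext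
      · intro c
        rw [RingHom.comp_apply, RingHom.comp_apply, RingHom.comp_apply, RatFunc.algebraMap_C, hjC]
        exact (act σ).commutes _
      · rw [RingHom.comp_apply, RingHom.comp_apply, RingHom.comp_apply, RatFunc.algebraMap_X, hjX]
        exact hy1 σ hσ
    exact DFunLike.congr_fun h3 x
  let a : Γ →* (L ≃+* L) :=
    { toFun := fun σ => (act σ).toRingEquiv
      map_one' := by
        rw [map_one]
        rfl
      map_mul' := fun σ τ => by
        rw [map_mul]
        rfl }
  have ha : ∀ σ z, a σ z = act σ z := fun _ _ => rfl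
  refine ⟨L, inferInstance, j.toAlgebra, a, ?_, ?_, ?_⟩
  · intro σ τ h
    refine hbij.1 (AlgEquiv.ext fun z => ?_)
    rw [← ha, ← ha, h]
  · intro σ c
    change a σ (j (RatFunc.C c)) = j (RatFunc.C c)
    rw [hjC, ha]
    exact (act σ).commutes _
  · intro z
    constructor
    · intro h
      exact hmain z h
    · rintro ⟨x, rfl⟩ σ hσ
      exact hconv x σ hσ

end MP7U
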