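import Pool.Agent.Lib.MP_7f581e_U.F.Spec1

/-!
# C41 (MP_7f581e_nt), Block F: GA realisations for large `p`
-/

set_option autoImplicit false

namespace MP7U

open Polynomial

theorem fGaF (h1 : UniFStmt) (h2 : BqFStmt) (h3 : InvFStmt) (h4 : ExtFStmt) (h5 : EpsFStmt) :
    GaFStmt := by
  intro S _ _ _ hnc hinv A α hA hα hα2 hαn hsup
  have hfinM : Finite (MulAut S) :=
    Finite.of_injective (fun f : MulAut S => (f : S → S)) DFunLike.coe_injective
  have hfinA : Finite A := inferInstance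
  -- the subgroup of the inner automorphisms
  obtain ⟨N, hN⟩ : ∃ N : Subgroup A, N = (MulAut.conj (G := S)).range.subgroupOf A := ⟨_, rfl⟩
  have hmemN : ∀ x : A, x ∈ N ↔ (x : MulAut S) ∈ (MulAut.conj (G := S)).range := by
    intro x
    rw [hN, Subgroup.mem_subgroupOf]
  have hnorm : N.Normal := by
    refine ⟨fun n hn g => ?_⟩
    rw [hmemN] at hn ⊢
    obtain ⟨s, hs⟩ := hn
    refine ⟨(g : MulAut S) s, ?_⟩
    rw [Subgroup.coe_mul, Subgroup.coe_mul, Subgroup.coe_inv, ← hs]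
    ext x
    simp [MulAut.mul_apply]
  obtain ⟨α', hα'⟩ : ∃ α' : A, α' = ⟨α, hα⟩ := ⟨_, rfl⟩
  have hcoe : (α' : MulAut S) = α := by rw [hα']
  have hα'2 : α' ^ 2 = 1 := by
    apply Subtype.ext
    rw [Subgroup.coe_pow, hcoe, hα2, Subgroup.coe_one]
  have hα'n : α' ∉ N := by
    rw [hmemN, hcoe]
    exact hαn
  have hsup' : N ⊔ Subgroup.zpowers α' = ⊤ := by
    apply Subgroup.map_injective A.subtype_injective
    rw [Subgroup.map_sup, MonoidHom.map_zpowers, hN, Subgroup.map_subgroupOf_eq_of_le hA,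
      ← MonoidHom.range_eq_map, Subgroup.range_subtype]
    rw [Subgroup.subtype_apply, hcoe]
    exact hsup
  obtain ⟨ε, hε, hεα⟩ := h5 A N α' hα'2 hα'n hsup'
  -- the inner automorphisms are generated by involutions
  let cj : S →* A := (MulAut.conj (G := S)).codRestrict A fun s => hA ⟨s, rfl⟩
  have hcjN : ∀ s, cj s ∈ N := fun s => (hmemN _).mpr ⟨s, rfl⟩
  have hNle : N ≤ Subgroup.closure {g : A | g ^ 2 = 1 ∧ ε g = 1} := by
    intro x hx
    obtain ⟨s, hs⟩ := (hmemN x).mp hx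
    have hxs : x = cj s := Subtype.ext hs.symm
    have h6 : s ∈ Subgroup.closure {g : S | g ^ 2 = 1} := by
      rw [h3 S hinv]
      trivial
    have h7 : cj s ∈ (Subgroup.closure {g : S | g ^ 2 = 1}).map cj :=
      Subgroup.mem_map_of_mem cj h6
    rw [MonoidHom.map_closure] at h7
    rw [hxs]
    refine Subgroup.closure_mono ?_ h7
    rintro _ ⟨t, ht, rfl⟩
    refine ⟨?_, (hε _).mpr (hcjN t)⟩
    have ht' : t ^ 2 = 1 := ht
    rw [← map_pow, ht', map_one]
  have htop : Subgroup.zpowers α' ⊔ Subgroup.closure {g : A | g ^ 2 = 1 ∧ ε g = 1} = ⊤ := by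
    rw [eq_top_iff, ← hsup', sup_comm N]
    exact sup_le_sup_left hNle _
  obtain ⟨n₀, hn₀⟩ := h1 A ε 1 (Subgroup.zpowers α')
    (fun k _ _ => h2 k A ε α' hα'2 hεα) htop
  refine ⟨max n₀ 2, fun p _ hp => ?_⟩
  have hHH := hn₀ p (lt_of_le_of_lt (le_max_left _ _) hp)
  have h2p : (2 : ZMod p) ≠ 0 := by
    intro h
    have h6 : ((2 : ℕ) : ZMod p) = 0 := by exact_mod_cast h
    rw [ZMod.natCast_eq_zero_iff] at h6
    have h7 := Nat.le_of_dvd (by norm_num) h6
    have h8 : 2 < p := lt_of_le_of_lt (le_max_right _ _) hp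
    omega
  obtain ⟨L, i1, i2, a, hainj, hac, hafix⟩ := h4 (ZMod p) h2p A ε α' hεα hHH
  refine ⟨inferInstance, inferInstance, hnc, hA, L, i1, i2, a, hainj, hac, fun y => ?_⟩
  rw [← hafix y]
  constructor
  · intro h σ hσ
    exact h σ ((hmemN σ).mp ((hε σ).mp hσ))
  · intro h σ hσ
    exact h σ ((hε σ).mpr ((hmemN σ).mpr hσ))

end MP7U
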