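import Pool.Agent.Lib.MP_7f581e_U.F.Spec1

/-!
# C41 (MP_7f581e_nt), U/F/IncF: induction over a list of involutions
-/

set_option autoImplicit false

namespace MP7U

namespace IncFM

theorem HH_congr {k : Type} [Field k] {Γ : Type} [Group Γ] {ε : Γ →* ℤˣ} {e : ℕ}
    {H H' : Subgroup Γ} (h : H = H') (hH : HH k H (ε.comp H.subtype) e) :
    HH k H' (ε.comp H'.subtype) e := by
  subst h
  exact hH

theorem step (hCngF : CngFStmt) (hStpF : StpFStmt) {k : Type} [Field k] [CharZero k]
    (hk : PAC k) {Γ : Type} [Group Γ] [Finite Γ] {ε : Γ →* ℤˣ} {e : ℕ} {H : Subgroup Γ} (g : Γ)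
    (h2 : g ^ 2 = 1) (hε : ε g = 1) (hH : HH k H (ε.comp H.subtype) e) :
    HH k (H ⊔ Subgroup.zpowers g : Subgroup Γ)
      (ε.comp (H ⊔ Subgroup.zpowers g : Subgroup Γ).subtype) e := by
  by_cases hg : g = 1
  · refine HH_congr ?_ hH
    rw [hg, Subgroup.zpowers_one_eq_bot, sup_bot_eq]
  · have hle : H ≤ H ⊔ Subgroup.zpowers g := le_sup_left
    have hgm : g ∈ H ⊔ Subgroup.zpowers g :=
      (le_sup_right : Subgroup.zpowers g ≤ _) (Subgroup.mem_zpowers g)
    refine hStpF k hk (H ⊔ Subgroup.zpowers g : Subgroup Γ) _ e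
      (H.subgroupOf (H ⊔ Subgroup.zpowers g)) ⟨g, hgm⟩ (Subtype.ext h2)
      (fun h => hg (congrArg Subtype.val h)) hε ?_ ?_
    · apply Subgroup.map_injective
        (Subgroup.subtype_injective (H ⊔ Subgroup.zpowers g : Subgroup Γ))
      rw [Subgroup.map_sup, Subgroup.subgroupOf_map_subtype, MonoidHom.map_zpowers,
        inf_eq_left.2 hle, ← MonoidHom.range_eq_map, Subgroup.range_subtype]
      rfl
    · exact hCngF k H _ (Subgroup.subgroupOfEquivOfLe hle) _ e hH

end IncFM

open IncFM in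
theorem fIncF (hCngF : CngFStmt) (hStpF : StpFStmt) : IncFStmt := by
  intro k _ _ hk Γ _ _ ε e H₀ hH l
  induction l with
  | nil =>
    intro _
    refine HH_congr ?_ hH
    have h1 : {g : Γ | g ∈ ([] : List Γ)} = ∅ := by
      ext g
      simp
    rw [h1, Subgroup.closure_empty, sup_bot_eq]
  | cons g l ih =>
    intro hl
    have h1 := ih fun x hx => hl x (List.mem_cons_of_mem g hx)
    have h2 := step hCngF hStpF hk g (hl g List.mem_cons_self).1 (hl g List.mem_cons_self).2 h1
    refine HH_congr ?_ h2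
    have h3 : {x : Γ | x ∈ g :: l} = {x | x ∈ l} ∪ {g} := by
      ext x
      simp [or_comm]
    rw [h3, Subgroup.closure_union, ← Subgroup.zpowers_eq_closure, sup_assoc]

end MP7U
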