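import Pool.Agent.Lib.MP_7f581e_U.F.Spec1

/-!
# C41 (MP_7f581e_nt), U/F/OccF: simple groups of even order occur over `𝔽_p(X)` for large `p`
-/

set_option autoImplicit false

namespace MP7U

theorem fOccF (hUniF : UniFStmt) (hBasF : BasFStmt) (hInvF : InvFStmt) : OccFStmt := by
  intro S _ _ _ hS
  have h1 : (⊥ : Subgroup S) ⊔ Subgroup.closure {g | g ^ 2 = 1 ∧ (1 : S →* ℤˣ) g = 1} = ⊤ := by
    rw [bot_sup_eq, ← hInvF S hS]
    congr 1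
    ext g
    simp
  obtain ⟨n₀, hn⟩ := hUniF S 1 0 ⊥ (fun k _ _ => hBasF k (⊥ : Subgroup S) _) h1
  refine ⟨n₀, fun p _ hp => ?_⟩
  obtain ⟨L, hL, hA, act, y, hfd, hgal, hbij, _⟩ := hn p hp
  exact ⟨L, hL, hA, hfd, hgal, ⟨(MulEquiv.ofBijective act hbij).symm⟩⟩

end MP7U
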