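import Pool.Agent.Lib.MP_7f581e_U.A.Spec1
import Pool.Agent.Lib.MP_7f581e_U.C.Spec1
import Pool.Agent.Lib.MP_7f581e_U.D.Spec1
import Pool.Agent.Lib.MP_7f581e_K.T.Defs

/-!
# C41 (MP_7f581e_nt), Block F: induction over the involutions, and the uniform bound

One Lean task for each `def XStmt : Prop`: file `MP_7f581e_U/F/X.lean`, import this file,
`namespace MP7U`, `theorem fX : XStmt` (statements which are used are hypotheses, in the order of
the docstring: `theorem fX (h1 : AStmt) (h2 : BStmt) : XStmt`).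
-/

set_option autoImplicit false

namespace MP7U

open Polynomial

/-- **CopF.** (60 lines)  A discriminant.

*Proof.*  Over `K = RatFunc k` the polynomial `m` is irreducible, `m' ≠ 0` has smaller degree, so `u' m + v' m' = 1` with `u', v' ∈ K[Y]` (`Irreducible.separable` in characteristic `0`; `derivative_map`).  Multiply by a common denominator `g ∈ k[X]` of the
coefficients (`IsLocalization.integerNormalization`, or `exist_integer_multiples`); the map `k[X][Y] → K[Y]` is injective. -/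
def CopFStmt : Prop :=
  ∀ (k : Type) [Field k] [CharZero k] (m : k[X][X]), m.Monic → 1 ≤ m.natDegree → IrrR k m →
    ∃ (g : k[X]) (u v : k[X][X]), g ≠ 0 ∧ u * m + v * derivative m = C g

/-- **HslF.** (60 lines)  Hensel's lemma at a simple point.

*Proof.*  `F = f.map (aeval (C a + X)).toRingHom` is monic over `k⟦X⟧`; modulo `(X)` (constant coefficients) it is `f(a, Y)`, with the simple root `b`.  `k⟦X⟧` is complete for `(X)` (`IsAdicComplete (span {X}) k⟦X⟧`, `IsAdicComplete.henselianRing`,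
`HenselianRing.is_henselian` at `a₀ = C b`): a root `β`. -/
def HslFStmt : Prop :=
  ∀ (k : Type) [Field k] (f : k[X][X]) (a b : k), f.Monic → (f.eval (C b)).eval a = 0 →
    ((derivative f).eval (C b)).eval a ≠ 0 →
    ∃ β : PowerSeries k, eval₂ (aeval (PowerSeries.C a + PowerSeries.X : PowerSeries k) :
      k[X] →ₐ[k] PowerSeries k).toRingHom β f = 0

/-- **SplF.** (150 lines)  Uses GenB (block B), CopF, HslF in this order.  A totally split rational place.

*Proof.*  `L` from `HH`; GenB: `θ`, `m`, `AbsIrr k m`, so `IrrR k m` (`φ = id`).  CopF: `g, u, v`.  `PAC k` (`natDegree m = finrank ≥ 1`): `a, b` with `g(a) ≠ 0`, `m(a, b) = 0`; so `v(a, b) m'(a, b) = g(a) ≠ 0`.  HslF: `β ∈ k⟦X⟧`.  Let `Λ = LaurentSeries k`; the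
homomorphism `k[X] → Λ`, `P ↦ P(a + s)` is injective and extends to `ψ : RatFunc k → Λ`; `m.map ..` has the root `β` in `Λ`.  `L = k(X)(θ)` with minimal polynomial `m` over `k(X)` (irreducible, `finrank = natDegree`; the powers `θ^i`, `i < n`, are a basis), so there is
`φ : L → Λ` extending `ψ` with `θ ↦ β` (`PowerBasis.lift` or `IntermediateField.adjoin.powerBasis`, `AdjoinRoot.lift`).  `φ c = C c` for constants, `φ X = C a + s` (`ss k = single 1 1`). -/
def SplFStmt : Prop :=
  ∀ (k : Type) [Field k] [CharZero k], PAC k → ∀ (Γ : Type) [Group Γ] [Finite Γ] (ε : Γ →* ℤˣ)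
    (e : ℕ), HH k Γ ε e → HHs k Γ ε e

/-- **BasF.** (60 lines)  The trivial group.

*Proof.*  `L = RatFunc k`, `act = 1`, `y = 1`.  An element of `RatFunc k` which is algebraic over `k` is constant: it is integral over `k[X]`, so a polynomial (`IsIntegrallyClosed`), and a nonconstant polynomial is transcendental over `k` (degrees of powers). -/
def BasFStmt : Prop :=
  ∀ (k : Type) [Field k] (Γ : Type) [Group Γ] [Subsingleton Γ] (ε : Γ →* ℤˣ), HH k Γ ε 0

/-- **BqF.** (150 lines)  Uses RegC (block B).  The group of order two, `L = k(√X)`.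

*Proof.*  `m = Y² - C X ∈ k[X][Y]`, monic of degree `2`; `AbsIrr k m`: over `K₁(X)` a root would be `r` with `r² = X`, `r` integral over `K₁[X]`, so a polynomial, and `2 natDegree r = 1` is impossible (`Monic.irreducible..` of degree `2`: no roots,
`Polynomial.irreducible_of_degree_le_three_of_not_isRoot` or `X_pow_sub_C_irreducible`-like lemmas).  `L = AdjoinRoot (m.map (algebraMap k[X] (RatFunc k)))`, `y` the root, degree `2`.  `H = zpowers g = {1, g}` (`g ≠ 1` because `ε g = -1`).  `act g` is the automorphism `y ↦ -y` (`y` and `-y` are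
roots of `m`; `act g * act g = 1`; it is not `1` because `2 y ≠ 0`); `act` is a homomorphism `H → (L ≃ₐ L)`, injective, `card H = 2 = finrank`, so bijective and `L / k(X)` is Galois (`IsGalois.of_card_aut_eq_finrank`).  `y² = X = X^1`, `act h y = ε(h) y`.  RegC with `θ = y`. -/
def BqFStmt : Prop :=
  ∀ (k : Type) [Field k] [CharZero k] (Γ : Type) [Group Γ] (ε : Γ →* ℤˣ) (g : Γ), g ^ 2 = 1 →
    ε g = -1 → HH k (Subgroup.zpowers g) (ε.comp (Subgroup.zpowers g).subtype) 1

/-- **CngF.** (20 lines)  Transport along an isomorphism.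

*Proof.*  `act.comp f`. -/
def CngFStmt : Prop :=
  ∀ (k : Type) [Field k] (Γ Γ' : Type) [Group Γ] [Group Γ'] (f : Γ' ≃* Γ) (ε : Γ →* ℤˣ) (e : ℕ),
    HH k Γ ε e → HH k Γ' (ε.comp f.toMonoidHom) e

/-- **StpF.** (40 lines)  Uses SplF, PatA (block A), AllC (block C), SpB (block B) in this order.

*Proof.*  `HHs k H` by SplF, `HH (LaurentSeries k) Γ ε e` by PatA, `S` by SpB (`LaurentSeries k` has characteristic `0`: `k → LaurentSeries k` is injective), a homomorphism `cl S → k` by AllC. -/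
def StpFStmt : Prop :=
  ∀ (k : Type) [Field k] [CharZero k], PAC k → ∀ (Γ : Type) [Group Γ] [Finite Γ] (ε : Γ →* ℤˣ)
    (e : ℕ) (H : Subgroup Γ) (g : Γ), g ^ 2 = 1 → g ≠ 1 → ε g = 1 →
    H ⊔ Subgroup.zpowers g = ⊤ → HH k H (ε.comp H.subtype) e → HH k Γ ε e

/-- **IncF.** (100 lines)  Uses CngF, StpF.  Induction over a list of involutions.

*Proof.*  Induction on `l`.  `l = []`: `H₀ ⊔ ⊥ = H₀` (rewrite the subgroup, or CngF with `MulEquiv.subgroupCongr`).  `g :: l`: `H = H₀ ⊔ closure l`, `H' = H₀ ⊔ closure (g :: l) = H ⊔ zpowers g`.  If `g = 1` then `H' = H`.  Otherwise apply StpF to the group `H'`, the subgroup `H.subgroupOf H' ≅ H`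
(`Subgroup.subgroupOfEquivOfLe`, CngF) and `⟨g, _⟩ ∈ H'`. -/
def IncFStmt : Prop :=
  ∀ (k : Type) [Field k] [CharZero k], PAC k → ∀ (Γ : Type) [Group Γ] [Finite Γ] (ε : Γ →* ℤˣ)
    (e : ℕ) (H₀ : Subgroup Γ), HH k H₀ (ε.comp H₀.subtype) e → ∀ l : List Γ,
    (∀ g ∈ l, g ^ 2 = 1 ∧ ε g = 1) →
    HH k (H₀ ⊔ Subgroup.closure {g | g ∈ l} : Subgroup Γ)
      (ε.comp (H₀ ⊔ Subgroup.closure {g | g ∈ l} : Subgroup Γ).subtype) e

/-- **UniF.** (100 lines)  Uses ExD, ChD, PacD, TrnD (block D), CngF, IncF in this order.  The uniform bound.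

*Proof.*  Suppose that there is no `n₀`.  Then for every `n` there is a prime `p n > n` such that `HH (ZMod (p n)) Γ ε e` is false (`choose`; `Fact` instances).  ExD: `K`, `π`; `CharZero K` (ChD), `PAC K` (PacD).  `l` a list of all `g ∈ Γ` with `g² = 1`, `ε g = 1` (`Γ` is finite).  IncF:
`HH K (H₀ ⊔ closure l)`, the subgroup is `⊤`, so `HH K Γ ε e` (CngF with `Subgroup.topEquiv`).  TrnD: `HH (ZMod (p n)) Γ ε e` for some `n`, a contradiction. -/
def UniFStmt : Prop :=
  ∀ (Γ : Type) [Group Γ] [Finite Γ] (ε : Γ →* ℤˣ) (e : ℕ) (H₀ : Subgroup Γ),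
    (∀ (k : Type) [Field k] [CharZero k], HH k H₀ (ε.comp H₀.subtype) e) →
    H₀ ⊔ Subgroup.closure {g | g ^ 2 = 1 ∧ ε g = 1} = ⊤ →
    ∃ n₀ : ℕ, ∀ (p : ℕ) [Fact p.Prime], n₀ < p → HH (ZMod p) Γ ε e

/-- **InvF.** (40 lines)  A finite simple group of even order is generated by involutions.

*Proof.*  The subgroup generated by the `g` with `g² = 1` is normal (the set is stable under conjugation) and not trivial, so it is everything. -/
def InvFStmt : Prop :=
  ∀ (S : Type) [Group S] [IsSimpleGroup S], (∃ g : S, g ≠ 1 ∧ g ^ 2 = 1) →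
    Subgroup.closure {g : S | g ^ 2 = 1} = ⊤

/-- **OccF.** (60 lines)  Uses UniF, BasF, InvF in this order.  `S` is a Galois group over `𝔽_p(X)` for large `p`.

*Proof.*  UniF with `Γ = S`, `ε = 1`, `e = 0`, `H₀ = ⊥` (BasF).  From `HH (ZMod p) S 1 0` take `L`, `act` (bijective: `MulEquiv.ofBijective`, its inverse). -/
def OccFStmt : Prop :=
  ∀ (S : Type) [Group S] [Finite S] [IsSimpleGroup S], (∃ g : S, g ≠ 1 ∧ g ^ 2 = 1) →
    ∃ n₀ : ℕ, ∀ (p : ℕ) [Fact p.Prime], n₀ < p → MP7fR.Occurs S (RatFunc (ZMod p))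

/-- **ExtF.** (200 lines)  Change of the parameter, `X = y²`.

*Proof.*  `L`, `act`, `y` from `HH`, `y² = X` (the image of `X`).  `y` is transcendental over `k` (because `X` is), so there is `j : RatFunc k → L`, `X ↦ y`, identity on `k` (`P ↦ P(y)` is injective on `k[X]`); give `L` the algebra structure `j`, and `a σ = act σ` as a ring automorphism (injective; trivial
on `k`).  `j(RatFunc k)` is fixed by `N = ker ε` (`act σ y = y`).  Conversely let `L^N` be the fixed field, `[L : L^N] = card N`, `[L : k(X)] = card Γ`, so `[L^N : k(X)] = 2` (`ε` is surjective: `ε g = -1`, index `2`).  `k(X)(y) ⊆ L^N` is not `k(X)`, because `act g y = -y ≠ y` (`2 ≠ 0`, `y ≠ 0`), so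
`k(X)(y) = L^N` (degree `2`); and `k(X)(y) ⊆ j(RatFunc k)`: `X = y²`.  (Shorter: for `z ∈ L^N` put `z₁ = z + act g z`, `z₂ = (z - act g z) y⁻¹`.  `N` is normal and `act g² = act` of an element of `N`, so `act g z ∈ L^N` and both `z₁, z₂` are fixed by `N` and by `g`, so by `Γ`
(`Γ = N ∪ g N`), so they are in `k(X)`, and `2 z = z₁ + z₂ y`.) -/
def ExtFStmt : Prop :=
  ∀ (k : Type) [Field k], (2 : k) ≠ 0 → ∀ (Γ : Type) [Group Γ] [Finite Γ] (ε : Γ →* ℤˣ) (g : Γ),
    ε g = -1 → HH k Γ ε 1 →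
    ∃ (L : Type) (_ : Field L) (_ : Algebra (RatFunc k) L) (a : Γ →* (L ≃+* L)),
      Function.Injective a ∧
      (∀ (σ : Γ) (c : k), a σ (algebraMap (RatFunc k) L (RatFunc.C c)) =
        algebraMap (RatFunc k) L (RatFunc.C c)) ∧
      ∀ y : L, (∀ σ : Γ, ε σ = 1 → a σ y = y) ↔ ∃ x, algebraMap (RatFunc k) L x = y

/-- **EpsF.** (60 lines)  The sign of `A = N ∪ α N`.

*Proof.*  `N` is normal in `A` and has index `2`: every element of `A` is `n` or `n α` with `n ∈ N` (`N ⊔ zpowers α = A`, `α² = 1`, normal).  `ε` is the homomorphism with kernel `N` (`A / N` has two elements: `ε x = if x ∈ N then 1 else -1`). -/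
def EpsFStmt : Prop :=
  ∀ (A : Type) [Group A] (N : Subgroup A) [N.Normal] (α : A), α ^ 2 = 1 → α ∉ N →
    N ⊔ Subgroup.zpowers α = ⊤ → ∃ ε : A →* ℤˣ, (∀ x, ε x = 1 ↔ x ∈ N) ∧ ε α = -1

/-- **GaF.** (150 lines)  Uses UniF, BqF, InvF, ExtF, EpsF in this order.  `(S, A)` has a GA realisation over `𝔽_p(X)` for large `p`.

*Proof.*  `Γ = A` (finite), `N` the subgroup of the inner automorphisms in `A` (`(MulAut.conj).range.subgroupOf A`, normal).  EpsF for `⟨α, _⟩ ∈ A`: `ε`.  UniF with `e = 1`, `H₀ = zpowers α` (BqF); `H₀ ⊔ closure {g | g² = 1, ε g = 1} = ⊤`: the conjugations by `s ∈ S` with `s² = 1` are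
such `g`, and they generate `N` (InvF), `N ⊔ zpowers α = ⊤`.  So `HH (ZMod p) A ε 1` for large `p`; take also `n₀ ≥ 2`, so that `2 ≠ 0`.  ExtF gives `L` and `a`; `ε σ = 1` iff `σ` is inner. -/
def GaFStmt : Prop :=
  ∀ (S : Type) [Group S] [Finite S] [IsSimpleGroup S], (∃ a b : S, a * b ≠ b * a) →
    (∃ g : S, g ≠ 1 ∧ g ^ 2 = 1) → ∀ (A : Subgroup (MulAut S)) (α : MulAut S),
    (MulAut.conj (G := S)).range ≤ A → α ∈ A → α ^ 2 = 1 → α ∉ (MulAut.conj (G := S)).range →
    (MulAut.conj (G := S)).range ⊔ Subgroup.zpowers α = A →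
    ∃ n₀ : ℕ, ∀ (p : ℕ) [Fact p.Prime], n₀ < p → MP7K.HasGAOver (ZMod p) S A

end MP7U
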