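import Pool.Agent.Lib.MP_7f581e_U.F.Spec1

/-!
# C41 (MP_7f581e_nt), Block F: one step of the induction (`StpF`)
-/

set_option autoImplicit false

namespace MP7U

open Polynomial

theorem fStpF (hSpl : SplFStmt) (hPat : PatAStmt) (hAll : AllCStmt) (hSp : SpBStmt) :
    StpFStmt := by
  intro k _ _ hPAC Γ _ _ ε e H g hg2 hg1 hεg hHg hHH
  have h1 : HHs k H (ε.comp H.subtype) e := hSpl k hPAC H (ε.comp H.subtype) e hHH
  have h2 : HH (LaurentSeries k) Γ ε e := hPat k Γ ε e H g hg2 hg1 hεg hHg h1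
  have h3 : CharZero (LaurentSeries k) :=
    charZero_of_injective_ringHom
      (HahnSeries.C_injective : Function.Injective (HahnSeries.C : k →+* LaurentSeries k))
  obtain ⟨S, hS⟩ := hSp (LaurentSeries k) Γ ε e h2
  obtain ⟨φ⟩ := hAll k hPAC S
  exact hS k φ

end MP7U
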