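import Pool.Agent.Lib.MP_7f581e_U.F.Spec1
import Pool.Agent.Lib.MP_7f581e_K.T.Fin

/-!
# C41 (MP_7f581e_nt), Block F: towers

The groups which are built from finitely many types `(S i, A i)`.
-/

set_option autoImplicit false
set_option linter.unusedSectionVars false

universe u

namespace MP7U

open MP7K MP7Z MP7fR MP7fC MP7fE Equiv

/-- `S` is a finite nonabelian simple group of even order, and `A` is the group of inner
automorphisms of `S`, or `A` is a group of automorphisms which is the semidirect product of the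
group of inner automorphisms and a group `{1, α}` of order two. -/
def IsTyp (S : Type) [Group S] (A : Subgroup (MulAut S)) : Prop :=
  Finite S ∧ IsSimpleGroup S ∧ (∃ a b : S, a * b ≠ b * a) ∧ 2 ∣ Nat.card S ∧
    (A = (MulAut.conj (G := S)).range ∨ ∃ α : MulAut S, α ^ 2 = 1 ∧
      α ∉ (MulAut.conj (G := S)).range ∧
      (MulAut.conj (G := S)).range ⊔ Subgroup.zpowers α = A)

section

variable {I : Type} (S : I → Type) [∀ i, Group (S i)] (A : ∀ i, Subgroup (MulAut (S i)))

/-- The kernels which are allowed: the composition factors are in `IsKernelFactor p`, or the kernel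
is `S i ^ n` and the group acts on it through `A i ≀ Sym(n)`. -/
def GoodU (p : ℕ) [Fact p.Prime] {G : Type} [Group G] (M : Subgroup G) : Prop :=
  HasFactors (IsKernelFactor p) M ∨ ∃ i, ActsThrough M (A i)

/-- `Q` is obtained from `G` by finitely many surjective homomorphisms
`G = G₀ → G₁ → ... → G_m ≃ Q`, all of whose kernels are allowed. -/
inductive TowerU (p : ℕ) [Fact p.Prime] (Q : Type) [Group Q] : (G : Type) → [Group G] → Prop
  | base (G : Type) [Group G] (e : G ≃* Q) : TowerU p Q G
  | step (G H : Type) [Group G] [Group H] (f : G →* H) (hf : Function.Surjective f)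
      (hker : GoodU S A p f.ker) (h : TowerU p Q H) : TowerU p Q G

variable {S A}

/-- A tower over a prime field with GA realisations. -/
theorem TowerU.tower {p : ℕ} [Fact p.Prime] (h : ∀ i, HasGAOver (ZMod p) (S i) (A i))
    {Q : Type} [Group Q] {G : Type} [Group G] (hG : TowerU S A p Q G) :
    Tower p (ZMod p) Q G := by
  induction hG with
  | base G e => exact .base G e
  | step G H f hf hker _ ih =>
    refine .step G H f hf ?_ ih
    rcases hker with hk | ⟨i, hi⟩
    · exact Or.inl hk
    · exact Or.inr (Or.inl ⟨S i, inferInstance, A i, h i, hi⟩)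

/-- A group acts on a normal subgroup `S ^ n` through `Aut S ≀ Sym(n)`. -/
theorem actsThrough_top {T : Type} [Group T] [Finite T] [IsSimpleGroup T]
    (hnc : ∃ a b : T, a * b ≠ b * a) {G : Type} [Group G] (M : Subgroup G) [M.Normal] {n : ℕ}
    (φ : M ≃* (Fin n → T)) : ActsThrough M (⊤ : Subgroup (MulAut T)) := by
  have hc := G5.center_bot hnc
  refine ⟨n, φ, fun g => ?_⟩
  let cm : M ≃* M := MulAut.conjNormal (H := M) g
  obtain ⟨π, α, hα⟩ := Pool.Agent.Lib.MP_7f581e_nt.AutAlt.aut_pi hc ((φ.symm.trans cm).trans φ)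
  refine ⟨π, fun j => ⟨α j, Subgroup.mem_top _⟩, fun x y hxy j => ?_⟩
  have h1 := hα (φ x) j
  have h2 : y = cm x := Subtype.ext (hxy.trans (MulAut.conjNormal_apply (H := M) g x).symm)
  rw [h2]
  simpa using h1

theorem actsThrough_congr {T T' : Type} [Group T] [Group T'] (e : T ≃* T') {G : Type} [Group G]
    {M : Subgroup G} (h : ActsThrough M (⊤ : Subgroup (MulAut T))) :
    ActsThrough M (⊤ : Subgroup (MulAut T')) := by
  obtain ⟨n, φ, hφ⟩ := h
  refine ⟨n, φ.trans (MulEquiv.piCongrRight fun _ => e), fun g => ?_⟩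
  obtain ⟨σ, α, hα⟩ := hφ g
  refine ⟨σ, fun j => ⟨(e.symm.trans (α j : MulAut T)).trans e, Subgroup.mem_top _⟩,
    fun x y hxy j => ?_⟩
  have h1 := hα x y hxy j
  change e (φ y (σ j)) = e ((α j : MulAut T) (e.symm (e (φ x j))))
  rw [h1, MulEquiv.symm_apply_apply]

/-- The composition factors: `IsKernelFactor p`, or `S i` with `A i = Aut (S i)`. -/
def IsFacU (S : I → Type) [∀ i, Group (S i)] (A : ∀ i, Subgroup (MulAut (S i))) (p : ℕ)
    [Fact p.Prime] (T : Type) [Group T] : Prop :=
  IsKernelFactor p T ∨ ∃ i, A i = ⊤ ∧ Nonempty (T ≃* S i)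

theorem tower_of_factors {p : ℕ} [Fact p.Prime]
    (hS : ∀ i, Finite (S i) ∧ IsSimpleGroup (S i) ∧ ∃ a b : S i, a * b ≠ b * a) :
    ∀ (m : ℕ) (G : Type) [Group G] [Finite G], Nat.card G = m → HasFactors (IsFacU S A p) G →
      TowerU S A p Unit G := by
  have hiso : ∀ (T T' : Type) [Group T] [Group T'], (T ≃* T') → IsFacU S A p T →
      IsFacU S A p T' := by
    intro T T' _ _ e h
    rcases h with h | ⟨i, hi, ⟨f⟩⟩
    · exact Or.inl (isKernelFactor_congrR T T' e h)
    · exact Or.inr ⟨i, hi, ⟨e.symm.trans f⟩⟩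
  have hsim : ∀ (T : Type) [Group T], IsFacU S A p T → IsSimpleGroup T := by
    intro T _ h
    rcases h with h | ⟨i, hi, ⟨f⟩⟩
    · exact isKernelFactor_simpleR T h
    · have := (hS i).2.1
      exact f.isSimpleGroup
  intro m
  induction m using Nat.strong_induction_on with
  | _ m ih =>
    intro G _ _ hm hG
    rcases subsingleton_or_nontrivial G with hsub | hnt
    · exact .base G
        { toFun := fun _ => (), invFun := fun _ => 1, left_inv := fun _ => Subsingleton.elim _ _,
          right_inv := fun _ => rfl, map_mul' := fun _ _ => rfl }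
    · have hT : (⊤ : Subgroup G) ≠ ⊥ := top_ne_bot
      obtain ⟨M, hM, hMN, hM1, -, T, hTn, hTs, k, ⟨φ⟩⟩ := exists_min (⊤ : Subgroup G) hT
      have hMF : HasFactors (IsFacU S A p) M := by
        refine hG.of_injective hiso hsim M M.subtype M.subtype_injective ?_
        rw [Subgroup.range_subtype]
        exact hM
      have hTF : HasFactors (IsFacU S A p) T := by
        refine hMF.of_injective hiso hsim T T.subtype T.subtype_injective ?_
        rw [Subgroup.range_subtype]
        exact hTn
      have hqF : HasFactors (IsFacU S A p) (G ⧸ M) :=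
        hG.of_surjective hiso hsim _ (QuotientGroup.mk' M) (QuotientGroup.mk'_surjective M)
      have hker : (QuotientGroup.mk' M).ker = M := QuotientGroup.ker_mk' M
      refine .step G (G ⧸ M) (QuotientGroup.mk' M) (QuotientGroup.mk'_surjective M) ?_
        (ih _ (by rw [← hm]; exact card_quot_lt M hM1) (G ⧸ M) rfl hqF)
      rw [hker]
      rcases hTF.mem_of_isSimpleGroup hiso hsim with h | ⟨i, hi, ⟨f⟩⟩
      · left
        exact ((hasFactors_of_mem isKernelFactor_congrR h).pow isKernelFactor_congrR
          isKernelFactor_simpleR k).congr isKernelFactor_congrR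
          isKernelFactor_simpleR φ.symm
      · right
        refine ⟨i, ?_⟩
        have h1 := (hS i).1
        have h2 := (hS i).2.1
        rw [hi]
        exact actsThrough_top (hS i).2.2 M (φ.trans (MulEquiv.piCongrRight fun _ => f))

end

end MP7U
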