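import Pool.Agent.Lib.MP_7f581e_U.F.Spec1

/-!
# C41 (MP_7f581e_nt), U/F/UniF: the uniform bound
-/

set_option autoImplicit false

namespace MP7U

open Polynomial

theorem fUniF (hExD : ExDStmt) (hChD : ChDStmt) (hPacD : PacDStmt) (hTrnD : TrnDStmt)
    (hCngF : CngFStmt) (hIncF : IncFStmt) : UniFStmt := by
  classical
  intro Γ _ _ ε e H₀ hH htop
  by_contra hcon
  have h1 : ∀ n₀ : ℕ, ∃ (p : ℕ) (_ : Fact p.Prime), n₀ < p ∧ ¬ HH (ZMod p) Γ ε e := by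
    intro n₀
    by_contra h2
    apply hcon
    refine ⟨n₀, fun p hp hlt => ?_⟩
    by_contra h3
    exact h2 ⟨p, hp, hlt, h3⟩
  choose p hp hlt hno using h1
  obtain ⟨K, hK, π, hup⟩ := hExD p fun n => (hp n).out
  have hch : CharZero K := hChD p K π hup hlt
  have hpac : PAC K := hPacD p K π hup hlt
  obtain ⟨l, hl⟩ : ∃ l : List Γ, ∀ g, g ∈ l ↔ g ^ 2 = 1 ∧ ε g = 1 := by
    refine ⟨(Set.toFinite {g : Γ | g ^ 2 = 1 ∧ ε g = 1}).toFinset.toList, fun g => ?_⟩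
    rw [Finset.mem_toList, Set.Finite.mem_toFinset, Set.mem_setOf_eq]
  have h2 := hIncF K hpac Γ ε e H₀ (hH K) l fun g hg => (hl g).1 hg
  have h3 : (H₀ ⊔ Subgroup.closure {g | g ∈ l} : Subgroup Γ) = ⊤ := by
    rw [← htop]
    congr 2
    ext g
    exact hl g
  have h4 := hCngF K _ Γ ((MulEquiv.subgroupCongr h3).trans Subgroup.topEquiv).symm _ e h2
  have h5 : ((ε.comp (H₀ ⊔ Subgroup.closure {g | g ∈ l} : Subgroup Γ).subtype).comp
      ((MulEquiv.subgroupCongr h3).trans Subgroup.topEquiv).symm.toMonoidHom) = ε := by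
    ext g
    rfl
  rw [h5] at h4
  obtain ⟨n, hn⟩ := hTrnD p K π hup Γ ε e h4
  exact hno n hn

end MP7U
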